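import Mathlib

namespace Pool.Agent.Results.MP_180bcc_co.RatioFourThirds

open SimpleGraph

variable {V : Type}

/-- `w` lies in the closed neighbourhood of `v`. -/
def InN (G : SimpleGraph V) (v w : V) : Prop := w = v ∨ G.Adj v w

/-- Dominating sets. -/
def IsDom (G : SimpleGraph V) (D : Finset V) : Prop := ∀ w, ∃ d ∈ D, InN G d w

/-- Irredundant sets: every member has a private neighbour. -/
def IsIrr (G : SimpleGraph V) (S : Finset V) : Prop :=
  ∀ v ∈ S, ∃ w, InN G v w ∧ ∀ u ∈ S, u ≠ v → ¬ InN G u w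

/-- Maximal irredundant sets. -/
def IsMaxIrr (G : SimpleGraph V) (S : Finset V) : Prop :=
  IsIrr G S ∧ ∀ T : Finset V, S ⊂ T → ¬ IsIrr G T

/-- The domination number. -/
noncomputable def gamma (G : SimpleGraph V) : ℕ :=
  sInf {n | ∃ D : Finset V, IsDom G D ∧ D.card = n}

/-- The lower irredundance number. -/
noncomputable def ir (G : SimpleGraph V) : ℕ :=
  sInf {n | ∃ S : Finset V, IsMaxIrr G S ∧ S.card = n}

def par : Fin 20 → Fin 20 := ![0, 0, 0, 2, 1, 4, 1, 6, 7, 7, 9, 8, 11, 8, 13, 14, 14, 16, 15, 18]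

def T : SimpleGraph (Fin 20) where
  Adj a b := a ≠ b ∧ (par a = b ∨ par b = a)
  symm := ⟨fun _ _ h => ⟨h.1.symm, h.2.symm⟩⟩
  loopless := ⟨fun _ h => h.1 rfl⟩

instance : DecidableRel T.Adj := fun a b =>
  inferInstanceAs (Decidable (a ≠ b ∧ (par a = b ∨ par b = a)))

instance (a b : Fin 20) : Decidable (InN T a b) := inferInstanceAs (Decidable (b = a ∨ T.Adj a b))

lemma reach (k : ℕ) : ∀ a : Fin 20, a.val = k → T.Reachable a 0 := by
  induction k using Nat.strong_induction_on with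
  | _ k ih =>
    intro a ha
    have key : ∀ a : Fin 20, a = 0 ∨ ((par a).val < a.val ∧ T.Adj a (par a)) := by decide +kernel
    rcases key a with rfl | ⟨h1, h2⟩
    · exact Reachable.refl _
    · exact h2.reachable.trans (ih _ (ha ▸ h1) _ rfl)

lemma tree : T.IsTree := by
  rw [isTree_iff_connected_and_card]
  refine ⟨⟨fun a b => (reach _ a rfl).trans (reach _ b rfl).symm⟩, ?_⟩
  have : T.edgeFinset.card = 19 := by decide +kernel
  rw [Nat.card_eq_fintype_card, ← edgeFinset_card, this]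
  simp

def cls : Fin 20 → Fin 9 := ![8, 2, 0, 0, 1, 1, 2, 2, 5, 3, 3, 4, 4, 5, 5, 8, 6, 6, 7, 7]

def pk : Fin 9 → Fin 20 := ![3, 5, 6, 10, 12, 13, 17, 19, 0]

lemma gamma_eq : gamma T = 8 := by
  have h8 : 8 ∈ {n | ∃ D : Finset (Fin 20), IsDom T D ∧ D.card = n} :=
    ⟨{2, 4, 6, 9, 11, 13, 16, 18}, by unfold IsDom; decide +kernel, by decide +kernel⟩
  apply le_antisymm (Nat.sInf_le h8)
  obtain ⟨D, hD, hc⟩ := Nat.sInf_mem ⟨8, h8⟩
  rw [← hc]
  have key : ∀ j : Fin 9, j ≠ 8 → ∀ d, InN T d (pk j) → cls d = j := by decide +kernel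
  have hsub : Finset.univ.erase (8 : Fin 9) ⊆ D.image cls := by
    intro j hj
    obtain ⟨d, hd, h⟩ := hD (pk j)
    exact Finset.mem_image.2 ⟨d, hd, key j (Finset.mem_erase.1 hj).1 d h⟩
  have h1 := (Finset.card_le_card hsub).trans Finset.card_image_le
  have h2 : (Finset.univ.erase (8 : Fin 9)).card = 8 := by decide
  omega

def S0 : Finset (Fin 20) := {0, 1, 7, 8, 14, 15}

lemma maxIrr : IsMaxIrr T S0 := by
  refine ⟨by unfold IsIrr; decide +kernel, fun U hU hI => ?_⟩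
  obtain ⟨x, hx, hx'⟩ := Finset.exists_of_ssubset hU
  have key : ∀ x : Fin 20, x ∉ S0 → ∃ v ∈ insert x S0, ∀ w, InN T v w →
      ∃ u ∈ insert x S0, u ≠ v ∧ InN T u w := by decide +kernel
  obtain ⟨v, hv, h⟩ := key x hx'
  have hsub : insert x S0 ⊆ U := Finset.insert_subset hx hU.subset
  obtain ⟨w, hw, hw'⟩ := hI v (hsub hv)
  obtain ⟨u, hu, h1, h2⟩ := h w hw
  exact hw' u (hsub hu) h1 h2

lemma ir_le : ir T ≤ 6 := Nat.sInf_le ⟨S0, maxIrr, by decide⟩

lemma ir_pos : 0 < ir T := by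
  obtain ⟨S, hS, hc⟩ := Nat.sInf_mem (s := {n | ∃ S : Finset (Fin 20), IsMaxIrr T S ∧ S.card = n})
    ⟨6, S0, maxIrr, by decide⟩
  unfold ir
  rw [← hc, Finset.card_pos, Finset.nonempty_iff_ne_empty]
  rintro rfl
  refine hS.2 {0} (by decide) ?_
  intro v hv
  exact ⟨v, Or.inl rfl, fun u hu h => absurd ((Finset.mem_singleton.1 hu).trans
    (Finset.mem_singleton.1 hv).symm) h⟩

theorem result : ∃ G : SimpleGraph (Fin 20), G.IsTree ∧ gamma G = 8 ∧ 0 < ir G ∧ ir G ≤ 6 ∧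
    (5 / 4 : ℚ) < (gamma G : ℚ) / (ir G : ℚ) := by
  refine ⟨T, tree, gamma_eq, ir_pos, ir_le, ?_⟩
  have h1 : (0 : ℚ) < ir T := by exact_mod_cast ir_pos
  have h2 : (ir T : ℚ) ≤ 6 := by exact_mod_cast ir_le
  rw [gamma_eq, lt_div_iff₀ h1]
  push_cast
  linarith

end Pool.Agent.Results.MP_180bcc_co.RatioFourThirds
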